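import Mathlib

set_option autoImplicit false

open Filter Topology Set

namespace Pool.Agent.H.MP_09c31c_an

/-- Power series with nonnegative coefficients on a closed disc. -/
def Pos (R : ℝ) (g : ℂ → ℂ) : Prop :=
  ∃ a : ℕ → ℝ, (∀ n, 0 ≤ a n) ∧ ∀ z : ℂ, ‖z‖ ≤ R → HasSum (fun n => (a n : ℂ) * z ^ n) (g z)

theorem real_sum {a : ℕ → ℝ} {x : ℝ} {w : ℂ} (h : HasSum (fun n => (a n : ℂ) * (x : ℂ) ^ n) w) :
    HasSum (fun n => a n * x ^ n) w.re := by
  have := Complex.hasSum_re h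
  refine this.congr_fun fun n => ?_
  rw [← Complex.ofReal_pow, ← Complex.ofReal_mul, Complex.ofReal_re]

theorem norm_term {a : ℕ → ℝ} (ha : ∀ n, 0 ≤ a n) (z : ℂ) (n : ℕ) :
    ‖(a n : ℂ) * z ^ n‖ = a n * ‖z‖ ^ n := by
  rw [norm_mul, norm_pow, Complex.norm_real, Real.norm_of_nonneg (ha n)]

theorem nr {x : ℝ} (hx : 0 ≤ x) : ‖(x : ℂ)‖ = x := by
  rw [Complex.norm_real, Real.norm_of_nonneg hx]

namespace Pos
variable {R R' : ℝ} {g h F : ℂ → ℂ}

theorem mono (hg : Pos R g) (h : R' ≤ R) : Pos R' g := by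
  obtain ⟨a, ha, hs⟩ := hg
  exact ⟨a, ha, fun z hz => hs z (hz.trans h)⟩

theorem congr (hg : Pos R g) (he : ∀ z, ‖z‖ ≤ R → g z = h z) : Pos R h := by
  obtain ⟨a, ha, hs⟩ := hg
  exact ⟨a, ha, fun z hz => he z hz ▸ hs z hz⟩

theorem norm_le (hg : Pos R g) {x : ℝ} (hx : x ≤ R) {z : ℂ} (hz : ‖z‖ ≤ x) : ‖g z‖ ≤ (g x).re := by
  obtain ⟨a, ha, hs⟩ := hg
  have hx0 : 0 ≤ x := (norm_nonneg _).trans hz
  refine (hs z (hz.trans hx)).norm_le_of_bounded (real_sum (hs x (by rwa [nr hx0]))) fun n => ?_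
  rw [norm_term ha]
  exact mul_le_mul_of_nonneg_left (pow_le_pow_left₀ (norm_nonneg _) hz n) (ha n)

theorem eq_re (hg : Pos R g) {x : ℝ} (hx0 : 0 ≤ x) (hx : x ≤ R) : g x = ((g x).re : ℂ) := by
  obtain ⟨a, ha, hs⟩ := hg
  have h1 := hs x (by rwa [nr hx0])
  have h2 := Complex.hasSum_ofReal.2 (real_sum h1)
  refine h1.unique (h2.congr_fun fun n => ?_)
  push_cast; rfl

theorem re_nonneg (hg : Pos R g) {x : ℝ} (hx0 : 0 ≤ x) (hx : x ≤ R) : 0 ≤ (g x).re :=
  (norm_nonneg _).trans (hg.norm_le hx (z := x) (nr hx0).le)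

theorem re_mono (hg : Pos R g) {x y : ℝ} (hx0 : 0 ≤ x) (hxy : x ≤ y) (hy : y ≤ R) :
    (g x).re ≤ (g y).re :=
  (Complex.re_le_norm _).trans (hg.norm_le hy (by rwa [nr hx0]))

theorem radial (hg : Pos R g) {r t : ℝ} (hr : 0 ≤ r) (hr1 : r ≤ 1) (hR : 1 ≤ R) (hrt : r ≤ t)
    (ht : t ≤ R) {u : ℂ} (hu : ‖u‖ = 1) : ‖g (t * u) - g u‖ ≤ (g R).re - (g r).re := by
  obtain ⟨a, ha, hs⟩ := hg
  have ht0 : 0 ≤ t := hr.trans hrt
  have h1 := (hs (t * u) (by rwa [norm_mul, hu, mul_one, nr ht0])).sub (hs u (hu ▸ hR))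
  have h2 := (real_sum (hs R (nr (by linarith)).le)).sub
    (real_sum (hs r (by rw [nr hr]; linarith)))
  refine h1.norm_le_of_bounded h2 fun n => ?_
  have e : (a n : ℂ) * (t * u) ^ n - a n * u ^ n = ((a n * (t ^ n - 1) : ℝ) : ℂ) * u ^ n := by
    push_cast; ring
  rw [e, norm_mul, norm_pow, hu, one_pow, mul_one, Complex.norm_real, norm_mul,
    Real.norm_of_nonneg (ha n), ← mul_sub, Real.norm_eq_abs]
  refine mul_le_mul_of_nonneg_left (abs_le.2 ⟨?_, ?_⟩) (ha n)
  · linarith [pow_le_pow_left₀ hr hrt n, one_le_pow₀ (n := n) hR]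
  · linarith [pow_le_pow_left₀ ht0 ht n, pow_le_one₀ (n := n) hr hr1]

theorem continuousOn (hg : Pos R g) (hR : 0 ≤ R) : ContinuousOn g (Metric.closedBall 0 R) := by
  obtain ⟨a, ha, hs⟩ := hg
  have h1 : ContinuousOn (fun z : ℂ => ∑' n, (a n : ℂ) * z ^ n) (Metric.closedBall 0 R) :=
    continuousOn_tsum (fun n => by fun_prop) (real_sum (hs R (nr hR).le)).summable fun n z hz => by
      rw [norm_term ha]
      exact mul_le_mul_of_nonneg_left
        (pow_le_pow_left₀ (norm_nonneg _) (mem_closedBall_zero_iff.1 hz) n) (ha n)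
  exact h1.congr fun z hz => (hs z (mem_closedBall_zero_iff.1 hz)).tsum_eq.symm

theorem add (hg : Pos R g) (hh : Pos R h) : Pos R fun z => g z + h z := by
  obtain ⟨a, ha, hs⟩ := hg
  obtain ⟨b, hb, ht⟩ := hh
  refine ⟨fun n => a n + b n, fun n => add_nonneg (ha n) (hb n), fun z hz => ?_⟩
  refine ((hs z hz).add (ht z hz)).congr_fun fun n => ?_
  push_cast; ring

theorem smul (hg : Pos R g) {c : ℝ} (hc : 0 ≤ c) : Pos R fun z => c * g z := by
  obtain ⟨a, ha, hs⟩ := hg
  refine ⟨fun n => c * a n, fun n => mul_nonneg hc (ha n), fun z hz => ?_⟩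
  refine ((hs z hz).mul_left (c : ℂ)).congr_fun fun n => ?_
  push_cast; ring

theorem mul (hg : Pos R g) (hh : Pos R h) : Pos R fun z => g z * h z := by
  obtain ⟨a, ha, hs⟩ := hg
  obtain ⟨b, hb, ht⟩ := hh
  refine ⟨fun n => ∑ k ∈ Finset.range (n + 1), a k * b (n - k),
    fun n => Finset.sum_nonneg fun k _ => mul_nonneg (ha _) (hb _), fun z hz => ?_⟩
  have h1 := hasSum_sum_range_mul_of_summable_norm (summable_norm_iff.2 (hs z hz).summable)
    (summable_norm_iff.2 (ht z hz).summable)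
  rw [(hs z hz).tsum_eq, (ht z hz).tsum_eq] at h1
  refine h1.congr_fun fun n => ?_
  push_cast
  rw [Finset.sum_mul]
  refine Finset.sum_congr rfl fun k hk => ?_
  have : z ^ n = z ^ k * z ^ (n - k) := by
    rw [← pow_add, Nat.add_sub_cancel' (Nat.lt_succ_iff.1 (Finset.mem_range.1 hk))]
  rw [this]; ring

theorem monomial (R : ℝ) (k : ℕ) : Pos R fun z => z ^ k := by
  refine ⟨fun n => if n = k then 1 else 0, fun n => by dsimp only; split_ifs <;> norm_num, fun z _ => ?_⟩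
  have := hasSum_single (f := fun n => ((if n = k then 1 else 0 : ℝ) : ℂ) * z ^ n) k
    fun n hn => by simp [hn]
  simpa using this

theorem one (R : ℝ) : Pos R fun _ => 1 := by simpa using monomial R 0

theorem id (R : ℝ) : Pos R fun z => z := by simpa using monomial R 1

theorem zero (R : ℝ) : Pos R fun _ => 0 := by simpa using (one R).smul le_rfl

theorem pow (hg : Pos R g) (k : ℕ) : Pos R fun z => g z ^ k := by
  induction k with
  | zero => simpa using one R
  | succ k ih => simpa only [pow_succ] using ih.mul hg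

theorem of_hasSum {G : ℕ → ℂ → ℂ} (hG : ∀ j, Pos R (G j))
    (hsum : ∀ z, ‖z‖ ≤ R → HasSum (fun j => G j z) (g z)) (hR : 0 < R) : Pos R g := by
  choose a ha hs using hG
  have key : ∀ x : ℝ, 0 ≤ x → x ≤ R → Summable fun p : ℕ × ℕ => a p.1 p.2 * x ^ p.2 := by
    intro x hx0 hx
    have hx' : ‖(x : ℂ)‖ ≤ R := by rwa [nr hx0]
    refine (summable_prod_of_nonneg fun p => mul_nonneg (ha _ _) (pow_nonneg hx0 _)).2
      ⟨fun j => (real_sum (hs j x hx')).summable, ?_⟩
    refine (Complex.hasSum_re (hsum x hx')).summable.congr fun j => ?_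
    exact (real_sum (hs j x hx')).tsum_eq.symm
  have hcol : ∀ n, Summable fun j => a j n := fun n => by
    have := ((key R hR.le le_rfl).prod_symm.prod_factor n).mul_right (R ^ n)⁻¹
    refine this.congr fun j => ?_
    simp only [Prod.swap]
    field_simp
  refine ⟨fun n => ∑' j, a j n, fun n => tsum_nonneg fun j => ha j n, fun z hz => ?_⟩
  have h1 : Summable fun p : ℕ × ℕ => (a p.1 p.2 : ℂ) * z ^ p.2 :=
    Summable.of_norm ((key ‖z‖ (norm_nonneg _) hz).congr fun p => (norm_term (ha p.1) z p.2).symm)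
  have h2 : ∑' p : ℕ × ℕ, (a p.1 p.2 : ℂ) * z ^ p.2 = g z :=
    (h1.hasSum.prod_fiberwise fun j => hs j z hz).unique (hsum z hz)
  have h3 := h1.hasSum
  rw [h2, ← (Equiv.prodComm ℕ ℕ).hasSum_iff] at h3
  refine h3.prod_fiberwise fun n => ?_
  exact (Complex.hasSum_ofReal.2 (hcol n).hasSum).mul_right (z ^ n)

theorem pow_sub (hg : Pos R g) (hh : Pos R h) (k : ℕ) :
    Pos R fun z => (g z + h z) ^ k - g z ^ k := by
  induction k with
  | zero => simpa using zero R
  | succ k ih =>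
    refine (((hg.add hh).mul ih).add (hh.mul (hg.pow k))).congr fun z _ => ?_
    ring

theorem comp (hF : Pos R' F) (hg : Pos R g) (hR : 0 < R) (hle : (g R).re ≤ R') :
    Pos R fun z => F (g z) := by
  obtain ⟨a, ha, hs⟩ := hF
  exact of_hasSum (fun j => (hg.pow j).smul (ha j))
    (fun z hz => hs _ ((hg.norm_le le_rfl hz).trans hle)) hR

theorem comp_sub (hF : Pos R' F) (hg : Pos R g) (hh : Pos R h) (hR : 0 < R)
    (hle : (g R + h R).re ≤ R') : Pos R fun z => F (g z + h z) - F (g z) := by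
  obtain ⟨a, ha, hs⟩ := hF
  refine of_hasSum (fun j => (hg.pow_sub hh j).smul (ha j)) (fun z hz => ?_) hR
  have h1 := hs _ (((hg.add hh).norm_le le_rfl hz).trans hle)
  have h2 := hs (g z) ((hg.norm_le le_rfl hz).trans (by
    have := hh.re_nonneg hR.le le_rfl
    rw [Complex.add_re] at hle; linarith))
  refine (h1.sub h2).congr_fun fun n => ?_
  ring

theorem exp (R : ℝ) : Pos R Complex.exp := by
  refine ⟨fun n => (n.factorial : ℝ)⁻¹, fun n => by positivity, fun z _ => ?_⟩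
  have := NormedSpace.expSeries_div_hasSum_exp z
  rw [← Complex.exp_eq_exp_ℂ] at this
  refine this.congr_fun fun n => ?_
  push_cast; ring

theorem geo {ρ : ℝ} (hρ : ρ < 1) : Pos ρ fun v => v / (1 - v) := by
  have h1 : Pos ρ fun v => (1 - v)⁻¹ :=
    ⟨fun _ => 1, fun _ => zero_le_one, fun z hz => by
      simpa using hasSum_geometric_of_norm_lt_one (hz.trans_lt hρ)⟩
  simpa only [div_eq_mul_inv] using (id ρ).mul h1

end Pos

theorem rouche (s : ℂ) (hs : 100 ≤ s.re) :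
    ∃ x : ℂ, ‖x‖ ≤ 1 / 2 ∧ Complex.exp x * (s + x) = 1 + s + x := by
  have hden : ∀ x : ℂ, ‖x‖ ≤ 1 / 2 → 100 ≤ ‖1 + s + x‖ := fun x hx => by
    have h1 := Complex.re_le_norm (1 + s + x)
    have h2 := Complex.abs_re_le_norm x
    rw [abs_le] at h2
    simp only [Complex.add_re, Complex.one_re] at h1
    linarith [h2.1]
  have hne : ∀ x : ℂ, ‖x‖ ≤ 1 / 2 → 1 + s + x ≠ 0 := fun x hx h => by
    have := hden x hx
    rw [h, norm_zero] at this; linarith
  have hinv : ∀ x : ℂ, ‖x‖ ≤ 1 / 2 → ‖(1 + s + x)⁻¹‖ ≤ 1 / 100 := fun x hx => by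
    rw [norm_inv, one_div]
    exact inv_anti₀ (by norm_num) (hden x hx)
  let g : ℂ → ℂ := fun x => Complex.exp x * (1 - (1 + s + x)⁻¹)
  have hd : DifferentiableOn ℂ g (Metric.closedBall 0 (1 / 2)) := fun x hx =>
    (Complex.differentiable_exp.differentiableAt.mul ((differentiableAt_const _).sub
      (((differentiableAt_const _).add differentiableAt_id).inv
        (hne x (mem_closedBall_zero_iff.1 hx))))).differentiableWithinAt
  have hdc : DiffContOnCl ℂ g (Metric.ball 0 (1 / 2)) :=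
    DifferentiableOn.diffContOnCl (by rwa [closure_ball _ (by norm_num)])
  have hsph : ∀ z ∈ Metric.sphere (0 : ℂ) (1 / 2), 1 / 5 ≤ ‖g z - g 0‖ := by
    intro z hz
    have hz' : ‖z‖ = 1 / 2 := mem_sphere_zero_iff_norm.1 hz
    have h1 := Complex.norm_exp_sub_one_sub_id_le (x := z) (by rw [hz']; norm_num)
    have h2 := Complex.norm_exp_sub_one_le (x := z) (by rw [hz']; norm_num)
    have h3 : ‖Complex.exp z‖ ≤ 2 := by
      have := norm_add_le (Complex.exp z - 1) 1
      rw [sub_add_cancel, norm_one] at this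
      rw [hz'] at h2; linarith
    have h4 : ‖Complex.exp z * (1 + s + z)⁻¹‖ ≤ 2 * (1 / 100) := by
      rw [norm_mul]
      exact mul_le_mul h3 (hinv z hz'.le) (norm_nonneg _) (by norm_num)
    have h5 := hinv 0 (by simp)
    have e : z = (g z - g 0) - (Complex.exp z - 1 - z) + Complex.exp z * (1 + s + z)⁻¹
        - (1 + s + 0)⁻¹ := by
      simp only [g, Complex.exp_zero]; ring
    have h6 : ‖z‖ ≤ ‖g z - g 0‖ + ‖Complex.exp z - 1 - z‖ + ‖Complex.exp z * (1 + s + z)⁻¹‖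
        + ‖(1 + s + 0)⁻¹‖ := by
      conv_lhs => rw [e]
      exact (norm_sub_le _ _).trans (add_le_add ((norm_add_le _ _).trans
        (add_le_add (norm_sub_le _ _) le_rfl)) le_rfl)
    rw [hz'] at h1 h6
    linarith
  have hfr : ∃ᶠ z in 𝓝 (0 : ℂ), g z ≠ g 0 := by
    by_contra hne'
    have hev : ∀ᶠ z in 𝓝 (0 : ℂ), g z = g 0 := by simpa using hne'
    have han : AnalyticOnNhd ℂ g (Metric.ball 0 (1 / 2)) :=
      hdc.differentiableOn.analyticOnNhd Metric.isOpen_ball
    have h1 := han.eqOn_of_preconnected_of_eventuallyEq (analyticOnNhd_const (v := g 0))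
      (convex_ball _ _).isPreconnected (Metric.mem_ball_self (by norm_num)) hev
    have h2 := h1.of_subset_closure hdc.continuousOn continuousOn_const subset_closure subset_rfl
    have hm : ((1 / 2 : ℝ) : ℂ) ∈ Metric.sphere (0 : ℂ) (1 / 2) := by
      rw [mem_sphere_zero_iff_norm, nr (by norm_num)]
    have h3 := hsph _ hm
    rw [h2 (by rw [closure_ball _ (by norm_num)]; exact Metric.sphere_subset_closedBall hm)] at h3
    norm_num at h3
  obtain ⟨x, hx, hx1⟩ := hdc.ball_subset_image_closedBall (by norm_num) hsph hfr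
    (show (1 : ℂ) ∈ _ by
      rw [Metric.mem_ball, dist_eq_norm]
      have := hinv 0 (by simp)
      have e : 1 - g 0 = (1 + s + 0)⁻¹ := by simp [g]
      rw [e]; linarith)
  have hx' := mem_closedBall_zero_iff.1 hx
  refine ⟨x, hx', ?_⟩
  have := hne x hx'
  simp only [g] at hx1
  field_simp at hx1
  linear_combination hx1

end Pool.Agent.H.MP_09c31c_an
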