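import Pool.Agent.H.MP_09c31c_an.A

set_option autoImplicit false

open Filter Topology Set

namespace Pool.Agent.H.MP_09c31c_an

/-- The building block. -/
noncomputable def sig (l a : ℝ) (n : ℕ) (z : ℂ) : ℂ :=
  (Real.exp l : ℂ) * z * Complex.exp ((n : ℂ)⁻¹ * ((z ^ n / a) / (1 - z ^ n / a)))

theorem sig_inner_pos {a R : ℝ} (n : ℕ) (ha : 0 < a) (hR : 0 < R) (h : R ^ n / a < 1) :
    Pos R fun z => (n : ℂ)⁻¹ * ((z ^ n / a) / (1 - z ^ n / a)) := by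
  have h1 : Pos R fun z => z ^ n / (a : ℂ) :=
    ((Pos.monomial R n).smul (inv_pos.2 ha).le).congr fun z _ => by push_cast; ring
  have h2 := (Pos.geo h).comp h1 hR (by
    rw [← Complex.ofReal_pow, ← Complex.ofReal_div, Complex.ofReal_re])
  exact (h2.smul (c := (n : ℝ)⁻¹) (by positivity)).congr fun z _ => by push_cast; rfl

theorem sig_pos (l : ℝ) {a R : ℝ} (n : ℕ) (ha : 0 < a) (hR : 0 < R) (h : R ^ n / a < 1) :
    Pos R (sig l a n) :=
  ((Pos.id R).smul (Real.exp_pos l).le).mul ((Pos.exp _).comp (sig_inner_pos n ha hR h) hR le_rfl)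

theorem sig_pos_sub (l : ℝ) {a R : ℝ} (n : ℕ) (ha : 0 < a) (hR : 0 < R) (h : R ^ n / a < 1) :
    Pos R fun z => sig l a n z - (Real.exp l : ℂ) * z := by
  have h1 := (Pos.exp _).comp_sub (Pos.zero R) (sig_inner_pos n ha hR h) hR le_rfl
  refine (((Pos.id R).smul (Real.exp_pos l).le).mul h1).congr fun z _ => ?_
  simp only [sig, zero_add, Complex.exp_zero]; ring

theorem sig_real (l a R : ℝ) (n : ℕ) (hR : 0 < R) : (sig l a n R).re =
    Real.exp (l + Real.log R + (n : ℝ)⁻¹ * ((R ^ n / a) / (1 - R ^ n / a))) := by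
  rw [Real.exp_add, Real.exp_add, Real.exp_log hR, sig,
    ← Complex.ofReal_re (Real.exp l * R * Real.exp _)]
  congr 1
  push_cast
  rfl

theorem sig_deriv (l : ℝ) {a : ℝ} {n : ℕ} (hn : n ≠ 0) (ha : 0 < a) (z : ℂ) (hz : ‖z‖ ^ n < a) :
    ∃ d, d ≠ 0 ∧ HasDerivAt (sig l a n) d z := by
  have ha' : (a : ℂ) ≠ 0 := by exact_mod_cast ha.ne'
  have hn' : (n : ℂ) ≠ 0 := by exact_mod_cast hn
  have hv : ‖z ^ n / a‖ < 1 := by
    rw [norm_div, norm_pow, nr ha.le, div_lt_one ha]; exact hz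
  have h1 : 1 - z ^ n / a ≠ 0 := fun h => by
    rw [← sub_eq_zero.1 h, norm_one] at hv; exact lt_irrefl _ hv
  have hp := (hasDerivAt_pow n z).div_const (a : ℂ)
  have hq := ((hp.div (hp.const_sub 1) h1).const_mul (n : ℂ)⁻¹).cexp
  have := ((hasDerivAt_id z).const_mul (Real.exp l : ℂ)).mul hq
  refine ⟨_, ?_, this⟩
  obtain ⟨m, rfl⟩ := Nat.exists_eq_succ_of_ne_zero hn
  set v := z ^ (m + 1) / a with hvd
  have e : ∀ E : ℂ, (Real.exp l : ℂ) * 1 * E + (Real.exp l : ℂ) * id z * (E * (((m + 1 : ℕ) : ℂ)⁻¹ *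
      ((((m + 1 : ℕ) : ℂ) * z ^ (m + 1 - 1) / a * (1 - v) - v * -(((m + 1 : ℕ) : ℂ) * z ^ (m + 1 - 1) / a)) /
        (1 - v) ^ 2))) = (Real.exp l : ℂ) * E * ((1 - v + v ^ 2) / (1 - v) ^ 2) := by
    intro E
    have : z * z ^ m / a = v := by rw [hvd, pow_succ']
    simp only [id, Nat.add_sub_cancel]
    field_simp
    rw [hvd]
    field_simp
    ring
  simp only [Nat.succ_eq_add_one, Pi.div_apply]
  rw [e]
  refine mul_ne_zero (mul_ne_zero (by exact_mod_cast (Real.exp_pos l).ne') (Complex.exp_ne_zero _))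
    (div_ne_zero (fun h => ?_) (pow_ne_zero _ h1))
  have h3 : v ^ 3 = -1 := by linear_combination (1 + v) * h
  have h4 := congrArg norm h3
  rw [norm_pow, norm_neg, norm_one] at h4
  have := pow_lt_one₀ (norm_nonneg v) hv (n := 3) (by norm_num)
  linarith

theorem sig_rot (l a : ℝ) (n : ℕ) (z ω : ℂ) (hω : ω ^ n = 1) :
    sig l a n (ω * z) = ω * sig l a n z := by
  simp only [sig, mul_pow, hω, one_mul]; ring

theorem sig_solve (l : ℝ) {a : ℝ} {n : ℕ} (hn : n ≠ 0) (ha : 0 < a) (ζ s : ℂ) (hζ : ζ ≠ 0)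
    (hs : 1 + s ≠ 0) (h : (Real.exp l : ℂ) ^ n * a * (s / (1 + s)) * Complex.exp s = ζ ^ n) :
    ∃ z, sig l a n z = ζ ∧ z ^ n = a * (s / (1 + s)) := by
  have ha' : (a : ℂ) ≠ 0 := by exact_mod_cast ha.ne'
  have hn' : (n : ℂ) ≠ 0 := by exact_mod_cast hn
  obtain ⟨z, hz⟩ := IsAlgClosed.exists_pow_nat_eq (a * (s / (1 + s))) (Nat.pos_of_ne_zero hn)
  have h1 : sig l a n z ^ n = ζ ^ n := by
    rw [sig, mul_pow, mul_pow, ← Complex.exp_nat_mul, hz, ← h]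
    have e : (n : ℂ) * ((n : ℂ)⁻¹ * (a * (s / (1 + s)) / a / (1 - a * (s / (1 + s)) / a))) = s := by
      field_simp
      ring
    rw [e]; ring
  have h2 : sig l a n z ≠ 0 := fun h0 => by
    rw [h0, zero_pow hn] at h1
    exact pow_ne_zero n hζ h1.symm
  have hω : (ζ / sig l a n z) ^ n = 1 := by rw [div_pow, h1, div_self (pow_ne_zero n hζ)]
  refine ⟨ζ / sig l a n z * z, ?_, by rw [mul_pow, hω, one_mul, hz]⟩
  rw [sig_rot l a n z _ hω, div_mul_cancel₀ _ h2]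

theorem find_s (M τ r₀ θ : ℝ) (hτ1 : τ ≤ 1) (h61 : 61 ≤ τ * r₀) (h100 : 100 ≤ r₀) (hM : r₀ ≤ M) :
    ∃ s : ℂ, 1 + s ≠ 0 ∧ s / (1 + s) * Complex.exp s = Complex.exp (r₀ + θ * Complex.I) ∧
      1 - 2 / M * (1 + τ) ≤ ‖s / (1 + s)‖ ^ 2 ∧ ‖s / (1 + s)‖ ^ 2 ≤ 1 - 2 / M * (1 - τ) := by
  have hpi : 0 < 2 * Real.pi := by positivity
  set Y := Real.sqrt (r₀ * (M - r₀)) with hY
  have hY2 : Y ^ 2 = r₀ * (M - r₀) := Real.sq_sqrt (by nlinarith)
  have hY0 : 0 ≤ Y := Real.sqrt_nonneg _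
  have hYM : Y ≤ M := by
    refine (pow_le_pow_iff_left₀ hY0 (by linarith) two_ne_zero).1 ?_
    nlinarith
  obtain ⟨y₀, k, hy1, hy2, hk⟩ : ∃ (y₀ : ℝ) (k : ℤ), Y - Real.pi ≤ y₀ ∧ y₀ ≤ Y + Real.pi ∧
      y₀ = θ - k * (2 * Real.pi) := by
    have h1 := toIcoMod_mem_Ico hpi (Y - Real.pi) θ
    refine ⟨toIcoMod hpi (Y - Real.pi) θ, toIcoDiv hpi (Y - Real.pi) θ, h1.1, by linarith [h1.2], ?_⟩
    rw [← self_sub_toIcoDiv_zsmul, zsmul_eq_mul]
  obtain ⟨x, hx, hxe⟩ := rouche (r₀ + y₀ * Complex.I) (by simpa using h100)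
  have hxr := (Complex.abs_re_le_norm x).trans hx
  have hxi := (Complex.abs_im_le_norm x).trans hx
  rw [abs_le] at hxr hxi
  set s : ℂ := r₀ + y₀ * Complex.I + x with hs
  have hre : s.re = r₀ + x.re := by simp [hs]
  have him : s.im = y₀ + x.im := by simp [hs]
  have hN : ‖1 + s‖ ^ 2 = (1 + s.re) ^ 2 + s.im ^ 2 := by
    rw [Complex.sq_norm, Complex.normSq_apply]; simp; ring
  have hN' : ‖s‖ ^ 2 = s.re ^ 2 + s.im ^ 2 := by
    rw [Complex.sq_norm, Complex.normSq_apply]; ring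
  have hNpos : 0 < ‖1 + s‖ ^ 2 := by rw [hN]; nlinarith [sq_nonneg s.im]
  have hne : 1 + s ≠ 0 := fun h => by rw [h] at hNpos; simp at hNpos
  have hq : ‖s / (1 + s)‖ ^ 2 = 1 - (2 * s.re + 1) / ‖1 + s‖ ^ 2 := by
    rw [norm_div, div_pow, eq_sub_iff_add_eq, ← add_div, div_eq_one_iff_eq hNpos.ne', hN, hN']
    ring
  have hp4 := Real.pi_le_four
  have hp3 := Real.pi_lt_d2
  have hM0 : 0 < M := by linarith
  have hd : |s.im - Y| ≤ 4 := by rw [abs_le, him]; constructor <;> linarith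
  have hE1 : ‖1 + s‖ ^ 2 ≤ r₀ * M + 30 * M := by
    rw [hN, hre]
    have : s.im ^ 2 ≤ (Y + 4) ^ 2 := by
      rw [abs_le] at hd
      exact sq_le_sq' (by linarith) (by linarith)
    nlinarith
  have hE2 : r₀ * M - 30 * M ≤ ‖1 + s‖ ^ 2 := by
    rw [hN, hre]
    have : Y ^ 2 - 8 * Y ≤ s.im ^ 2 := by
      rw [abs_le] at hd
      nlinarith [sq_nonneg (s.im - Y)]
    nlinarith
  refine ⟨s, hne, ?_, ?_, ?_⟩
  · have e1 : Complex.exp s = Complex.exp (r₀ + θ * Complex.I) * Complex.exp x := by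
      rw [hs, Complex.exp_add, Complex.exp_eq_exp_iff_exists_int.2
        (⟨-k, by rw [hk]; push_cast; ring⟩ : ∃ n : ℤ, (r₀ : ℂ) + y₀ * Complex.I =
          (r₀ + θ * Complex.I) + n * (2 * Real.pi * Complex.I))]
    have e2 : Complex.exp x * s = 1 + s := by rw [hxe, hs]; ring
    rw [e1]
    field_simp
    linear_combination e2
  · rw [hq, sub_le_sub_iff_left, div_le_iff₀ hNpos, div_mul_eq_mul_div, div_mul_eq_mul_div,
      le_div_iff₀ hM0, hre]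
    have hτ0 : 0 ≤ τ := by nlinarith
    nlinarith [mul_le_mul_of_nonneg_left hE2 (by linarith : 0 ≤ 1 + τ)]
  · rw [hq, sub_le_sub_iff_left, le_div_iff₀ hNpos, div_mul_eq_mul_div, div_mul_eq_mul_div,
      div_le_iff₀ hM0, hre]
    have hτ0 : 0 ≤ τ := by nlinarith
    nlinarith [mul_le_mul_of_nonneg_left hE1 (by linarith : 0 ≤ 1 - τ)]

theorem radius {n : ℕ} (hn : n ≠ 0) {Q q : ℝ} (hQ0 : 0 < Q) (hQ : Q ≤ 1 / 3) (hq0 : 0 < q)
    (hq : q ≤ 1 / 2) : ∃ R : ℝ, 0 < R ∧ (R ^ n / (Real.sqrt (1 - Q))⁻¹) ^ 2 = 1 - q ∧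
      |Real.log R| ≤ 1 / n := by
  have h1 : 0 < 1 - Q := by linarith
  have h2 : 0 < (1 - q) / (1 - Q) := div_pos (by linarith) h1
  have hn' : (0 : ℝ) < n := by exact_mod_cast Nat.pos_of_ne_zero hn
  refine ⟨Real.exp (Real.log ((1 - q) / (1 - Q)) / (2 * n)), Real.exp_pos _, ?_, ?_⟩
  · rw [div_pow, inv_pow, Real.sq_sqrt h1.le, ← pow_mul, ← Real.exp_nat_mul]
    have : ((n * 2 : ℕ) : ℝ) * (Real.log ((1 - q) / (1 - Q)) / (2 * n)) =
        Real.log ((1 - q) / (1 - Q)) := by push_cast; field_simp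
    rw [this, Real.exp_log h2]
    field_simp
  · rw [Real.log_exp, abs_div, abs_of_pos (by positivity : (0 : ℝ) < 2 * n),
      div_le_div_iff₀ (by positivity) hn']
    have h3 : Real.log ((1 - q) / (1 - Q)) ≤ 1 := by
      refine (Real.log_le_sub_one_of_pos h2).trans ?_
      rw [sub_le_iff_le_add, div_le_iff₀ h1]; linarith
    have h4 : -1 ≤ Real.log ((1 - q) / (1 - Q)) := by
      refine le_trans ?_ (Real.one_sub_inv_le_log_of_pos h2)
      rw [inv_div]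
      have : (1 - Q) / (1 - q) ≤ 2 := by rw [div_le_iff₀ (by linarith)]; linarith
      linarith
    have : |Real.log ((1 - q) / (1 - Q))| ≤ 1 := abs_le.2 ⟨h4, h3⟩
    nlinarith

theorem geo_bounds {ρ q : ℝ} (hρ : 0 ≤ ρ) (hq0 : 0 < q) (h : ρ ^ 2 = 1 - q) :
    ρ < 1 ∧ 2 / q - 2 ≤ ρ / (1 - ρ) ∧ ρ / (1 - ρ) ≤ 2 / q := by
  have h1 : ρ < 1 := by nlinarith
  have h2 : 0 < 1 - ρ := by linarith
  have hq : q = (1 - ρ) * (1 + ρ) := by linarith
  refine ⟨h1, ?_, ?_⟩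
  · rw [sub_le_iff_le_add, div_add' _ _ _ h2.ne', div_le_div_iff₀ hq0 h2, hq]
    nlinarith [mul_nonneg hρ h2.le, mul_pos h2 h2]
  · rw [div_le_div_iff₀ h2 hq0, hq]
    nlinarith [mul_nonneg hρ h2.le, mul_pos h2 h2]

end Pool.Agent.H.MP_09c31c_an
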