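import Pool.Agent.H.MP_09c31c_an.B

set_option autoImplicit false

open Filter Topology Set

namespace Pool.Agent.H.MP_09c31c_an

theorem core (l p p' μ κ : ℝ) (hp : 0 < p) (hp' : p' ≤ μ) (hpp : p ≤ p') (hκ : 0 < κ) :
    ∃ (σ : ℂ → ℂ) (R1 R2 R3 R4 : ℝ), 0 < R1 ∧ R1 < R2 ∧ R2 ≤ 1 ∧ 1 ≤ R3 ∧ R3 < R4 ∧
      R3 ≤ Real.exp κ ∧ Real.exp (-κ) ≤ R2 ∧
      Pos R4 σ ∧ (Pos R4 fun z => σ z - (Real.exp l : ℂ) * z) ∧
      (∀ z : ℂ, ‖z‖ < R4 → ∃ d, d ≠ 0 ∧ HasDerivAt σ d z) ∧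
      (σ R4).re ≤ Real.exp (l + μ + κ) ∧ Real.exp (l + μ - κ) ≤ (σ R1).re ∧
      ∀ ζ : ℂ, Real.exp (l + p) ≤ ‖ζ‖ → ‖ζ‖ ≤ Real.exp (l + p') →
        ∃ z, R2 ≤ ‖z‖ ∧ ‖z‖ ≤ R3 ∧ σ z = ζ := by
  have hμ : 0 < μ := by linarith
  obtain ⟨τ, hτ0, hτ1, hτκ⟩ : ∃ τ : ℝ, 0 < τ ∧ τ ≤ 1 / 4 ∧ 4 * τ * μ ≤ κ / 2 := by
    refine ⟨min (1 / 4) (κ / (8 * μ)), lt_min (by norm_num) (by positivity), min_le_left _ _, ?_⟩
    have : min (1 / 4) (κ / (8 * μ)) * (8 * μ) ≤ κ := by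
      rw [← le_div_iff₀ (by positivity)]; exact min_le_right _ _
    linarith
  obtain ⟨n, hn⟩ := exists_nat_ge (max ((61 / τ + 101) / p) (max (6 / μ) (6 / κ)))
  have hn1 : 61 / τ + 101 ≤ n * p := by
    rw [← div_le_iff₀ hp]; exact (le_max_left _ _).trans hn
  have hn2 : 6 ≤ n * μ := by
    rw [← div_le_iff₀ hμ]; exact ((le_max_left _ _).trans (le_max_right _ _)).trans hn
  have hn3 : 6 ≤ n * κ := by
    rw [← div_le_iff₀ hκ]; exact ((le_max_right _ _).trans (le_max_right _ _)).trans hn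
  have hn0 : (0 : ℝ) < n := by
    by_contra h
    have : (n : ℝ) = 0 := le_antisymm (not_lt.1 h) (Nat.cast_nonneg n)
    rw [this] at hn2; linarith
  have hnn : n ≠ 0 := by exact_mod_cast hn0.ne'
  have hnκ : 3 * (1 / (n : ℝ)) ≤ κ / 2 := by
    rw [mul_one_div, div_le_iff₀ hn0]; linarith
  have hninv : 0 < 1 / (n : ℝ) := by positivity
  set M := n * μ with hM
  set Q := 2 / M with hQ
  have hQ0 : 0 < Q := by positivity
  have hQ3 : Q ≤ 1 / 3 := by rw [hQ, div_le_iff₀ (by linarith)]; linarith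
  set a := (Real.sqrt (1 - Q))⁻¹ with ha
  have hsq : 0 < Real.sqrt (1 - Q) := Real.sqrt_pos.2 (by linarith)
  have ha0 : 0 < a := inv_pos.2 hsq
  have ha2 : (1 / a) ^ 2 = 1 - Q := by rw [ha, one_div, inv_inv, Real.sq_sqrt (by linarith)]
  have hla : 0 ≤ Real.log a ∧ Real.log a ≤ 1 := by
    have h1 : Real.sqrt (1 - Q) ≤ 1 := Real.sqrt_le_one.2 (by linarith)
    have h2 : 1 / 2 ≤ Real.sqrt (1 - Q) := Real.le_sqrt_of_sq_le (by linarith)
    refine ⟨Real.log_nonneg (one_le_inv_iff₀.2 ⟨hsq, h1⟩), ?_⟩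
    refine (Real.log_le_sub_one_of_pos ha0).trans ?_
    have : a ≤ 2 := by rw [ha]; exact inv_le_of_inv_le₀ (by norm_num) (by linarith)
    linarith
  have hq : ∀ c : ℝ, -(1 / 2) ≤ c → c ≤ 1 / 2 → 0 < Q * (1 + c) ∧ Q * (1 + c) ≤ 1 / 2 :=
    fun c h1 h2 => ⟨mul_pos hQ0 (by linarith), by nlinarith⟩
  have q1 := hq (2 * τ) (by linarith) (by linarith)
  have q2 := hq τ (by linarith) (by linarith)
  have q3 := hq (-τ) (by linarith) (by linarith)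
  have q4 := hq (-(2 * τ)) (by linarith) (by linarith)
  obtain ⟨R1, r1, e1, l1⟩ := radius hnn hQ0 hQ3 q1.1 q1.2
  obtain ⟨R2, r2, e2, l2⟩ := radius hnn hQ0 hQ3 q2.1 q2.2
  obtain ⟨R3, r3, e3, l3⟩ := radius hnn hQ0 hQ3 q3.1 q3.2
  obtain ⟨R4, r4, e4, l4⟩ := radius hnn hQ0 hQ3 q4.1 q4.2
  rw [← ha] at e1 e2 e3 e4
  have cmp : ∀ x y : ℝ, 0 ≤ x → 0 ≤ y → ((x ^ n / a) ^ 2 ≤ (y ^ n / a) ^ 2 → x ≤ y) := by
    intro x y hx hy h
    rw [pow_le_pow_iff_left₀ (by positivity) (by positivity) two_ne_zero,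
      div_le_div_iff_of_pos_right ha0, pow_le_pow_iff_left₀ hx hy hnn] at h
    exact h
  have cmp' : ∀ x y : ℝ, 0 ≤ x → 0 ≤ y → ((x ^ n / a) ^ 2 < (y ^ n / a) ^ 2 → x < y) := by
    intro x y hx hy h
    by_contra hh
    have : (y ^ n / a) ^ 2 ≤ (x ^ n / a) ^ 2 := by gcongr; exact not_lt.1 hh
    linarith
  have hQτ : 0 < Q * τ := mul_pos hQ0 hτ0
  obtain ⟨g1, g1', -⟩ := geo_bounds (by positivity) q1.1 e1
  obtain ⟨g4, -, g4'⟩ := geo_bounds (by positivity) q4.1 e4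
  rw [abs_le] at l1 l2 l3 l4
  refine ⟨sig l a n, R1, R2, R3, R4, r1, cmp' _ _ r1.le r2.le (by rw [e1, e2]; linarith),
    cmp _ _ r2.le zero_le_one (by rw [e2, one_pow, ha2]; linarith),
    cmp _ _ zero_le_one r3.le (by rw [e3, one_pow, ha2]; linarith),
    cmp' _ _ r3.le r4.le (by rw [e3, e4]; linarith), ?_, ?_, sig_pos l n ha0 r4 g4,
    sig_pos_sub l n ha0 r4 g4, fun z hz => sig_deriv l hnn ha0 z ?_, ?_, ?_, fun ζ h1 h2 => ?_⟩
  · rw [← Real.exp_log r3]; exact Real.exp_le_exp.2 (by linarith [l3.2])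
  · rw [← Real.exp_log r2]; exact Real.exp_le_exp.2 (by linarith [l2.1])
  · rw [div_lt_one ha0] at g4
    exact (pow_le_pow_left₀ (norm_nonneg _) hz.le n).trans_lt g4
  · rw [sig_real _ _ _ _ r4]
    refine Real.exp_le_exp.2 ?_
    have h1 : (n : ℝ)⁻¹ * (2 / (Q * (1 + -(2 * τ)))) ≤ μ + 4 * τ * μ := by
      have h2 : 0 < 1 + -(2 * τ) := by linarith
      have : (n : ℝ)⁻¹ * (2 / (Q * (1 + -(2 * τ)))) = μ / (1 + -(2 * τ)) := by
        rw [hQ, hM]; field_simp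
      rw [this, div_le_iff₀ h2]
      nlinarith [mul_pos hτ0 hμ]
    have := mul_le_mul_of_nonneg_left g4' (inv_pos.2 hn0).le
    linarith [l4.2]
  · rw [sig_real _ _ _ _ r1]
    refine Real.exp_le_exp.2 ?_
    have h1 : μ - 4 * τ * μ - 2 * (1 / (n : ℝ)) ≤ (n : ℝ)⁻¹ * (2 / (Q * (1 + 2 * τ)) - 2) := by
      have h2 : 0 < 1 + 2 * τ := by linarith
      have : (n : ℝ)⁻¹ * (2 / (Q * (1 + 2 * τ)) - 2) = μ / (1 + 2 * τ) - 2 * (1 / (n : ℝ)) := by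
        rw [hQ, hM]; field_simp
      rw [this, sub_le_sub_iff_right, le_div_iff₀ h2]
      nlinarith [mul_pos hτ0 hμ, mul_pos (mul_pos hτ0 hμ) hτ0]
    have := mul_le_mul_of_nonneg_left g1' (inv_pos.2 hn0).le
    linarith [l1.1]
  · have hζ0 : 0 < ‖ζ‖ := (Real.exp_pos _).trans_le h1
    have hζ : ζ ≠ 0 := norm_pos_iff.1 hζ0
    have t1 : l + p ≤ Real.log ‖ζ‖ := (Real.le_log_iff_exp_le hζ0).2 h1
    have t2 : Real.log ‖ζ‖ ≤ l + p' := (Real.log_le_iff_le_exp hζ0).2 h2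
    set r₀ := n * (Real.log ‖ζ‖ - l) - Real.log a with hr₀
    have u1 : n * p ≤ n * (Real.log ‖ζ‖ - l) := mul_le_mul_of_nonneg_left (by linarith) hn0.le
    have u2 : n * (Real.log ‖ζ‖ - l) ≤ n * μ := mul_le_mul_of_nonneg_left (by linarith) hn0.le
    have u3 : 61 / τ + 100 ≤ r₀ := by linarith [hla.2]
    have u4 : 0 < 61 / τ := by positivity
    obtain ⟨s, hs1, hs2, hs3, hs4⟩ := find_s M τ r₀ (n * Complex.arg ζ) (by linarith) (by
      have := mul_le_mul_of_nonneg_left u3 hτ0.le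
      rw [mul_add, mul_div_cancel₀ _ hτ0.ne'] at this
      linarith) (by linarith) (by linarith [hla.1])
    obtain ⟨z, hz1, hz2⟩ := sig_solve l hnn ha0 ζ s hζ hs1 (by
      rw [mul_assoc, hs2]
      have f1 : (a : ℂ) = Complex.exp (Real.log a : ℝ) := by
        rw [← Complex.ofReal_exp, Real.exp_log ha0]
      rw [f1, Complex.ofReal_exp, ← Complex.exp_nat_mul, ← Complex.exp_add, ← Complex.exp_add,
        ← Complex.exp_log hζ, ← Complex.exp_nat_mul, Complex.exp_log hζ, Complex.log, hr₀]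
      congr 1
      push_cast; ring)
    have hzn : ‖z‖ ^ n / a = ‖s / (1 + s)‖ := by
      rw [← norm_pow, hz2, norm_mul, nr ha0.le]; field_simp
    refine ⟨z, cmp _ _ r2.le (norm_nonneg _) ?_, cmp _ _ (norm_nonneg _) r3.le ?_, hz1⟩
    · rw [hzn, e2]; exact hs3
    · rw [hzn, e3]; linarith

/-- The inductive state. -/
structure St (ε : ℝ) where
  F : ℂ → ℂ
  R1 : ℝ
  R2 : ℝ
  R3 : ℝ
  R4 : ℝ
  h0 : 0 < R1
  h12 : R1 < R2
  h2 : R2 ≤ 1
  h3 : 1 ≤ R3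
  h34 : R3 < R4
  pos : Pos R4 F
  der : ∀ z : ℂ, ‖z‖ < R4 → ∃ d, d ≠ 0 ∧ HasDerivAt F d z
  cover : ∀ ζ : ℂ, 1 ≤ ‖ζ‖ → ‖ζ‖ ≤ 2 → ∃ z, R2 ≤ ‖z‖ ∧ ‖z‖ ≤ R3 ∧ F z = ζ
  small : (F R4).re - (F R1).re ≤ ε

/-- The initial state. -/
noncomputable def st0 : St 3 where
  F := fun z => z
  R1 := 1 / 2
  R2 := 1
  R3 := 2
  R4 := 3
  h0 := by norm_num
  h12 := by norm_num
  h2 := le_rfl
  h3 := by norm_num
  h34 := by norm_num
  pos := Pos.id _
  der := fun z _ => ⟨1, one_ne_zero, hasDerivAt_id z⟩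
  cover := fun ζ h1 h2 => ⟨ζ, h1, h2, rfl⟩
  small := by simp only [Complex.ofReal_re]; norm_num

theorem step {ε : ℝ} (S : St ε) (ε' : ℝ) (hε' : 0 < ε') : ∃ (S' : St ε') (P P' : ℂ → ℂ),
    Pos 1 P ∧ Pos 1 P' ∧ (P 1).re ≤ ε ∧ (P' 1).re ≤ ε ∧ ∀ z, S'.F z = S.F z + P z - P' z := by
  have r1 := S.h0
  have r2 : 0 < S.R2 := r1.trans S.h12
  have r3 : 0 < S.R3 := by linarith [S.h3]
  have r4 : 0 < S.R4 := r3.trans S.h34
  have a12 : Real.log S.R1 < Real.log S.R2 := Real.log_lt_log r1 S.h12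
  have a34 : Real.log S.R3 < Real.log S.R4 := Real.log_lt_log r3 S.h34
  have a2 : Real.log S.R2 ≤ 0 := Real.log_nonpos r2.le S.h2
  have a3 : 0 ≤ Real.log S.R3 := Real.log_nonneg S.h3
  set l := Real.log S.R1 with hl
  set m := (Real.log S.R3 + Real.log S.R4) / 2 with hm
  have hel : Real.exp l = S.R1 := Real.exp_log r1
  have hm4 : Real.exp m < S.R4 := by
    rw [← Real.exp_log r4]; exact Real.exp_lt_exp.2 (by linarith)
  -- continuity of the real restriction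
  have hc : ContinuousAt (fun t : ℝ => (S.F (Real.exp t : ℝ)).re) m := by
    obtain ⟨d, -, hd⟩ := S.der (Real.exp m : ℝ) (by rwa [nr (Real.exp_pos _).le])
    exact Complex.continuous_re.continuousAt.comp (ContinuousAt.comp (f := fun t : ℝ =>
      ((Real.exp t : ℝ) : ℂ)) hd.continuousAt (by fun_prop))
  obtain ⟨δ, hδ, hδ'⟩ := Metric.continuousAt_iff.1 hc (ε' / 2) (by positivity)
  obtain ⟨κ, hκ0, hκ1, hκ2⟩ : ∃ κ : ℝ, 0 < κ ∧ κ < δ ∧ m + κ < Real.log S.R4 :=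
    ⟨min (δ / 2) ((Real.log S.R4 - m) / 2), lt_min (by linarith) (by linarith),
      by linarith [min_le_left (δ / 2) ((Real.log S.R4 - m) / 2)],
      by linarith [min_le_right (δ / 2) ((Real.log S.R4 - m) / 2)]⟩
  obtain ⟨σ, R1, R2, R3, R4, k0, k12, k2, k3, k34, -, -, kp, kp', kd, ku, kl, kc⟩ :=
    core l (Real.log S.R2 - l) (Real.log S.R3 - l) (m - l) κ (by linarith) (by linarith)
      (by linarith) hκ0
  rw [add_sub_cancel] at ku kl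
  simp only [add_sub_cancel, Real.exp_log r2, Real.exp_log r3] at kc
  rw [hel] at kp'
  have hu4 : Real.exp (m + κ) < S.R4 := by
    rw [← Real.exp_log r4]; exact Real.exp_lt_exp.2 hκ2
  have k4 : 0 < R4 := by linarith
  have k14 : R1 ≤ R4 := by linarith
  have hσ4 : (σ R4).re < S.R4 := ku.trans_lt hu4
  have hσ1 : (σ (1 : ℝ)).re ≤ S.R4 := (kp.re_mono zero_le_one (by linarith) le_rfl).trans hσ4.le
  have hR1 : S.R1 ≤ 1 := by linarith [S.h12, S.h2]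
  have hR4 : 1 ≤ S.R4 := by linarith [S.h34, S.h3]
  have hg : Pos 1 fun z => (S.R1 : ℂ) * z := (Pos.id 1).smul r1.le
  refine ⟨⟨fun z => S.F (σ z), R1, R2, R3, R4, k0, k12, k2, k3, k34,
      S.pos.comp kp k4 hσ4.le, fun z hz => ?_, fun ζ h1 h2 => ?_, ?_⟩,
    fun z => S.F (S.R1 * z + (σ z - S.R1 * z)) - S.F (S.R1 * z),
    fun z => S.F (S.R1 * z + ((1 - S.R1 : ℝ) : ℂ) * z) - S.F (S.R1 * z),
    S.pos.comp_sub hg (kp'.mono (by linarith)) one_pos (by simpa using hσ1),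
    S.pos.comp_sub hg ((Pos.id 1).smul (by linarith)) one_pos (by simpa using hR4), ?_, ?_,
    fun z => ?_⟩
  · obtain ⟨d, hd0, hd⟩ := kd z hz
    obtain ⟨d', hd0', hd'⟩ := S.der (σ z) ((kp.norm_le le_rfl hz.le).trans_lt hσ4)
    exact ⟨d' * d, mul_ne_zero hd0' hd0, hd'.comp z hd⟩
  · obtain ⟨w, hw1, hw2, hw⟩ := S.cover ζ h1 h2
    obtain ⟨z, hz1, hz2, hz⟩ := kc w hw1 hw2
    exact ⟨z, hz1, hz2, by rw [hz, hw]⟩
  · have b1 := hδ' (x := m + κ) (by rw [Real.dist_eq, add_sub_cancel_left, abs_of_pos hκ0]; exact hκ1)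
    have b2 := hδ' (x := m - κ) (by
      rw [Real.dist_eq, sub_sub_cancel_left, abs_neg, abs_of_pos hκ0]; exact hκ1)
    rw [Real.dist_eq, abs_lt] at b1 b2
    have c1 := S.pos.re_mono (kp.re_nonneg k4.le le_rfl) ku hu4.le
    have c2 := S.pos.re_mono (Real.exp_pos _).le kl
      ((kp.re_mono k0.le k14 le_rfl).trans hσ4.le)
    rw [← kp.eq_re k4.le le_rfl] at c1
    rw [← kp.eq_re k0.le k14] at c2
    linarith [b1.2, b2.1]
  · have c1 := S.pos.re_mono (kp.re_nonneg zero_le_one (by linarith)) hσ1 le_rfl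
    rw [← kp.eq_re zero_le_one (by linarith)] at c1
    have := S.small
    simp only [mul_one, add_sub_cancel, Complex.sub_re, Complex.ofReal_one] at c1 ⊢
    linarith
  · have c1 := S.pos.re_mono zero_le_one hR4 le_rfl
    have := S.small
    simp only [mul_one, Complex.sub_re, Complex.ofReal_one, Complex.ofReal_sub,
      add_sub_cancel] at c1 ⊢
    linarith
  · have e : (S.R1 : ℂ) * z + ((1 - S.R1 : ℝ) : ℂ) * z = z := by push_cast; ring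
    simp only [add_sub_cancel, e]
    ring

end Pool.Agent.H.MP_09c31c_an
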