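import Pool.Agent.H.MP_09c31c_an.C

set_option autoImplicit false

open Filter Topology Set

namespace Pool.Agent.H.MP_09c31c_an

theorem hurwitz {U : Set ℂ} (hU : IsOpen U) (hc : IsPreconnected U) (g : ℕ → ℂ → ℂ) (ψ : ℂ → ℂ)
    (hg : ∀ k, DifferentiableOn ℂ (g k) U) (h0 : ∀ k, ∀ z ∈ U, g k z ≠ 0)
    (hl : TendstoLocallyUniformlyOn g ψ atTop U) {z₀ : ℂ} (hz₀ : z₀ ∈ U) (hψ : ψ z₀ = 0) :
    EqOn ψ 0 U := by
  have hd : DifferentiableOn ℂ ψ U := hl.differentiableOn (Eventually.of_forall hg) hU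
  have han : AnalyticOnNhd ℂ ψ U := hd.analyticOnNhd hU
  rcases (han z₀ hz₀).eventually_eq_zero_or_eventually_ne_zero with h | h
  · exact han.eqOn_zero_of_preconnected_of_eventuallyEq_zero hc hz₀ h
  exfalso
  rw [eventually_nhdsWithin_iff] at h
  obtain ⟨r, hr, hball⟩ := Metric.nhds_basis_closedBall.mem_iff.1 (h.and (hU.mem_nhds hz₀))
  have hsub : Metric.closedBall z₀ r ⊆ U := fun z hz => (hball hz).2
  obtain ⟨w, hw, hmin⟩ := (isCompact_sphere z₀ r).exists_isMinOn (NormedSpace.sphere_nonempty.2 hr.le)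
    ((hd.continuousOn.mono (Metric.sphere_subset_closedBall.trans hsub)).norm)
  have hm : 0 < ‖ψ w‖ := norm_pos_iff.2 ((hball (Metric.sphere_subset_closedBall hw)).1 (by
    intro h'
    rw [mem_singleton_iff.1 h', Metric.mem_sphere, dist_self] at hw
    exact hr.ne hw))
  have hu := (tendstoLocallyUniformlyOn_iff_forall_isCompact hU).1 hl _ hsub
    (isCompact_closedBall z₀ r)
  obtain ⟨k, hk⟩ := (Metric.tendstoUniformlyOn_iff.1 hu (‖ψ w‖ / 2) (by positivity)).exists
  have hdi : DifferentiableOn ℂ (fun z => (g k z)⁻¹) (closure (Metric.ball z₀ r)) := by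
    rw [closure_ball _ hr.ne']
    exact ((hg k).mono hsub).inv fun z hz => h0 k z (hsub hz)
  have h1 := Complex.norm_le_of_forall_mem_frontier_norm_le Metric.isBounded_ball
    hdi.diffContOnCl (C := (‖ψ w‖ / 2)⁻¹) (fun z hz => by
      rw [frontier_ball _ hr.ne'] at hz
      have a1 := hk z (Metric.sphere_subset_closedBall hz)
      have a2 : ‖ψ w‖ ≤ ‖ψ z‖ := hmin hz
      rw [dist_eq_norm] at a1
      have a3 := norm_sub_norm_le (ψ z) (g k z)
      rw [norm_inv]
      exact inv_anti₀ (by positivity) (by linarith))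
    (subset_closure (Metric.mem_ball_self hr))
  have a1 := hk z₀ (Metric.mem_closedBall_self hr.le)
  rw [hψ, dist_zero_left] at a1
  rw [norm_inv] at h1
  have := inv_strictAnti₀ (norm_pos_iff.2 (h0 k z₀ hz₀)) a1
  linarith

/-- The sequence of states. -/
noncomputable def seq : (k : ℕ) → St (3 * (1 / 2) ^ k)
  | 0 => { st0 with small := by simpa using st0.small }
  | k + 1 => (step (seq k) (3 * (1 / 2) ^ (k + 1)) (by positivity)).choose

theorem main : ∃ a : ℕ → ℂ, Summable (fun n => ‖a n‖) ∧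
      (∀ z : ℂ, ‖z‖ < 1 → deriv (fun w : ℂ => ∑' n, a n * w ^ n) z ≠ 0) ∧
      MeasureTheory.volume ((fun w : ℂ => ∑' n, a n * w ^ n) '' Metric.sphere (0 : ℂ) 1) ≠ 0 := by
  have hstep : ∀ k, ∃ P P' : ℂ → ℂ, Pos 1 P ∧ Pos 1 P' ∧ (P 1).re ≤ 3 * (1 / 2) ^ k ∧
      (P' 1).re ≤ 3 * (1 / 2) ^ k ∧ ∀ z, (seq (k + 1)).F z = (seq k).F z + P z - P' z :=
    fun k => (step (seq k) (3 * (1 / 2) ^ (k + 1)) (by positivity)).choose_spec
  choose P P' hP hP' hb hb' hF using hstep
  have hu : Summable fun k : ℕ => (3 : ℝ) * (1 / 2) ^ k := summable_geometric_two.mul_left 3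
  have hPb : ∀ k z, z ∈ Metric.closedBall (0 : ℂ) 1 → ‖P k z‖ ≤ 3 * (1 / 2) ^ k := fun k z hz =>
    ((hP k).norm_le le_rfl (mem_closedBall_zero_iff.1 hz)).trans (by simpa using hb k)
  have hPb' : ∀ k z, z ∈ Metric.closedBall (0 : ℂ) 1 → ‖P' k z‖ ≤ 3 * (1 / 2) ^ k := fun k z hz =>
    ((hP' k).norm_le le_rfl (mem_closedBall_zero_iff.1 hz)).trans (by simpa using hb' k)
  have hG : Pos 1 fun z => z + ∑' k, P k z := (Pos.id 1).add (Pos.of_hasSum hP (fun z hz =>
    (Summable.of_norm_bounded hu fun k => hPb k z (mem_closedBall_zero_iff.2 hz)).hasSum) one_pos)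
  have hG' : Pos 1 fun z => ∑' k, P' k z := Pos.of_hasSum hP' (fun z hz =>
    (Summable.of_norm_bounded hu fun k => hPb' k z (mem_closedBall_zero_iff.2 hz)).hasSum) one_pos
  have hcont := (hG.continuousOn zero_le_one).sub (hG'.continuousOn zero_le_one)
  obtain ⟨a, ha, hs⟩ := hG
  obtain ⟨b, hb0, ht⟩ := hG'
  set φ : ℂ → ℂ := fun w => ∑' n, ((a n : ℂ) - b n) * w ^ n with hφ
  have hφe : ∀ z ∈ Metric.closedBall (0 : ℂ) 1, φ z = z + ∑' k, P k z - ∑' k, P' k z := by
    intro z hz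
    have hz' := mem_closedBall_zero_iff.1 hz
    refine HasSum.tsum_eq (((hs z hz').sub (ht z hz')).congr_fun fun n => ?_)
    ring
  have hφc : ContinuousOn φ (Metric.closedBall 0 1) := hcont.congr hφe
  have hFk : ∀ k z, (seq k).F z =
      z + ∑ j ∈ Finset.range k, P j z - ∑ j ∈ Finset.range k, P' j z := by
    intro k z
    induction k with
    | zero => simp [seq, st0]
    | succ k ih => rw [hF, ih, Finset.sum_range_succ, Finset.sum_range_succ]; ring
  have hun : TendstoUniformlyOn (fun k => (seq k).F) φ atTop (Metric.closedBall 0 1) := by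
    have h1 := tendstoUniformlyOn_tsum_nat hu hPb
    have h2 := tendstoUniformlyOn_tsum_nat hu hPb'
    have h0 : TendstoUniformlyOn (fun (_ : ℕ) (z : ℂ) => z) (fun z => z) atTop
        (Metric.closedBall 0 1) := fun u hu' => Eventually.of_forall fun _ _ _ => refl_mem_uniformity hu'
    refine (((h0.add h1).sub h2).congr (Eventually.of_forall fun k z _ => (hFk k z).symm)).congr_right
      fun z hz => (hφe z hz).symm
  have hcov : ∀ ζ : ℂ, 1 ≤ ‖ζ‖ → ‖ζ‖ ≤ 2 → ζ ∈ φ '' Metric.sphere 0 1 := by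
    intro ζ h1 h2
    have hcl : IsClosed (φ '' Metric.sphere 0 1) :=
      ((isCompact_sphere 0 1).image_of_continuousOn
        (hφc.mono Metric.sphere_subset_closedBall)).isClosed
    rw [← hcl.closure_eq, Metric.mem_closure_iff]
    intro ε hε
    obtain ⟨k, hk1, hk2⟩ := ((Metric.tendstoUniformlyOn_iff.1 hun (ε / 2) (by positivity)).and
      (hu.tendsto_atTop_zero.eventually_lt_const (half_pos hε))).exists
    obtain ⟨z, hz1, hz2, hz⟩ := (seq k).cover ζ h1 h2
    have hz0 : 0 < ‖z‖ := ((seq k).h0.trans (seq k).h12).trans_le hz1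
    have hzc : (‖z‖ : ℂ) ≠ 0 := by exact_mod_cast hz0.ne'
    have hun1 : ‖z / ‖z‖‖ = 1 := by rw [norm_div, nr hz0.le, div_self hz0.ne']
    have hrad := (seq k).pos.radial (seq k).h0.le ((seq k).h12.le.trans (seq k).h2)
      ((seq k).h3.trans (seq k).h34.le) ((seq k).h12.le.trans hz1) (hz2.trans (seq k).h34.le) hun1
    rw [mul_div_cancel₀ _ hzc, hz] at hrad
    refine ⟨_, ⟨z / ‖z‖, mem_sphere_zero_iff_norm.2 hun1, rfl⟩, ?_⟩
    have h3 := hk1 (z / ‖z‖) (mem_closedBall_zero_iff.2 hun1.le)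
    have h4 := dist_triangle_right ζ (φ (z / ‖z‖)) ((seq k).F (z / ‖z‖))
    rw [dist_eq_norm ζ ((seq k).F _)] at h4
    linarith [(seq k).small]
  refine ⟨fun n => (a n : ℂ) - b n, ?_, fun z hz hz0 => ?_, ?_⟩
  · have h1 := (hs 1 (by simp)).summable.sub (ht 1 (by simp)).summable
    simpa using summable_norm_iff.2 h1
  · have hlt : ∀ k (z : ℂ), z ∈ Metric.ball (0 : ℂ) 1 → ‖z‖ < (seq k).R4 := fun k z hz =>
      (mem_ball_zero_iff.1 hz).trans ((seq k).h3.trans_lt (seq k).h34)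
    have hdk : ∀ k, DifferentiableOn ℂ (seq k).F (Metric.ball 0 1) := fun k z hz => by
      obtain ⟨d, -, hd⟩ := (seq k).der z (hlt k z hz)
      exact hd.differentiableAt.differentiableWithinAt
    have hl : TendstoLocallyUniformlyOn (fun k => (seq k).F) φ atTop (Metric.ball 0 1) :=
      (hun.mono Metric.ball_subset_closedBall).tendstoLocallyUniformlyOn
    have hdφ := hl.differentiableOn (Eventually.of_forall hdk) Metric.isOpen_ball
    have h1 := hurwitz Metric.isOpen_ball (convex_ball _ _).isPreconnected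
      (fun k => deriv (seq k).F) (deriv φ) (fun k => (hdk k).deriv Metric.isOpen_ball)
      (fun k z hz => by
        obtain ⟨d, hd0, hd⟩ := (seq k).der z (hlt k z hz)
        rwa [hd.deriv])
      (hl.deriv (Eventually.of_forall hdk) Metric.isOpen_ball) (mem_ball_zero_iff.2 hz) hz0
    have h2 : EqOn φ (fun _ => φ 0) (Metric.ball 0 1) := fun w hw =>
      Metric.isOpen_ball.is_const_of_deriv_eq_zero (convex_ball _ _).isPreconnected hdφ h1 hw
        (Metric.mem_ball_self one_pos)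
    have h3 : EqOn φ (fun _ => φ 0) (Metric.closedBall 0 1) :=
      h2.of_subset_closure hφc continuousOn_const Metric.ball_subset_closedBall
        (by rw [closure_ball _ one_ne_zero])
    obtain ⟨w1, hw1, e1⟩ := hcov 1 (by simp) (by simp)
    obtain ⟨w2, hw2, e2⟩ := hcov 2 (by simp) (by simp)
    rw [h3 (Metric.sphere_subset_closedBall hw1)] at e1
    rw [h3 (Metric.sphere_subset_closedBall hw2)] at e2
    have := e1.symm.trans e2
    norm_num at this
  · refine (lt_of_lt_of_le (Metric.measure_ball_pos MeasureTheory.volume (3 / 2 : ℂ)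
      (by norm_num : (0 : ℝ) < 1 / 2)) (MeasureTheory.measure_mono fun ζ hζ => ?_)).ne'
    rw [Metric.mem_ball, dist_eq_norm] at hζ
    have h1 := abs_norm_sub_norm_le ζ (3 / 2)
    have h2 : ‖(3 / 2 : ℂ)‖ = 3 / 2 := by simp
    rw [h2, abs_le] at h1
    exact hcov ζ (by linarith [h1.1]) (by linarith [h1.2])

end Pool.Agent.H.MP_09c31c_an
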